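import Pool.Graph.R_pool_sql_team_seeded_efc1946e.K1H35.ST.Lat

/-! The lattice code on the first `n` cells of a `Q × Q` square, for every `n ≤ Q * Q`. -/

set_option autoImplicit false

noncomputable section

namespace Pool.Agent.Helper7.ST

open Finset Pool.Agent.K1H64.ST Pool.Agent.K1H35.ST

variable {n : ℕ}

lemma Z_valG {Q : ℕ} (hQ : 0 < Q) (hn : n ≤ Q * Q) (x : Cube n) (i : Fin n) :
    Z Q x (i.val / Q) (i.val % Q) = if x i then 1 else 0 := by
  have h1 : i.val % Q < Q := Nat.mod_lt _ hQ
  have h2 : i.val / Q < Q := by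
    rw [Nat.div_lt_iff_lt_mul hQ]
    have := i.isLt
    omega
  have h3 : i.val / Q * Q + i.val % Q = i.val := by
    rw [mul_comm]; exact Nat.div_add_mod _ _
  unfold Z
  rw [dif_pos ⟨h2, h1, by rw [h3]; exact i.isLt⟩]
  congr 2
  apply congrArg
  exact Fin.ext h3

/-- Outside the region the syndrome vanishes. -/
lemma S_out {Q : ℕ} (x : Cube n) {a b : ℕ} (h : ¬ a * Q + b < n) : S Q x a b = 0 := by
  have h2 : (a + 1) * Q = a * Q + Q := by ring
  unfold S
  rw [Z_out _ (by tauto), Z_out _ (by rw [h2]; omega), Z_out _ (by omega),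
    Z_out _ (by rw [h2]; omega)]
  simp

/-- `Z (L x) = S x` on the square. -/
lemma Z_LLG {Q : ℕ} (x : Cube n) {a b : ℕ} (ha : a < Q) (hb : b < Q) :
    Z Q (LL Q x) a b = S Q x a b := by
  by_cases h : a * Q + b < n
  · unfold Z
    rw [dif_pos ⟨ha, hb, h⟩]
    unfold LL
    simp only [div_eq hb, mod_eq hb, decide_eq_true_eq]
    rcases zmod2_cases (S Q x a b) with h1 | h1 <;> rw [h1] <;> simp
  · rw [Z_out _ (by tauto), S_out x h]

lemma LL_kerG {Q : ℕ} (hQ : 0 < Q) (hn : n ≤ Q * Q) (x : Cube n)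
    (h : ∀ i, LL Q x i = false) : ∀ i, x i = false := by
  have hS : ∀ a b, a < Q → b < Q → S Q x a b = 0 := by
    intro a b ha hb
    rw [← Z_LLG x ha hb]
    unfold Z
    split_ifs with h1 h2
    · rw [h] at h2; simp at h2
    · rfl
    · rfl
  have hZ : ∀ N a b, 2 * Q - (a + b) ≤ N → Z Q x a b = 0 := by
    intro N
    induction N with
    | zero =>
      intro a b hab
      apply Z_out
      omega
    | succ N ih =>
      intro a b hab
      by_cases hin : a < Q ∧ b < Q
      · have h1 := hS a b hin.1 hin.2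
        unfold S at h1
        rw [ih (a + 1) b (by omega), ih a (b + 1) (by omega), ih (a + 1) (b + 1) (by omega)] at h1
        simpa using h1
      · apply Z_out
        tauto
  intro i
  have h1 := Z_valG hQ hn x i
  rw [hZ _ _ _ le_rfl] at h1
  by_contra hne
  rw [if_pos (by simpa using hne)] at h1
  exact absurd h1 (by decide)

lemma LL_bijG {Q : ℕ} (hQ : 0 < Q) (hn : n ≤ Q * Q) : Function.Bijective (LL (n := n) Q) := by
  apply Finite.injective_iff_bijective.mp
  intro x y hxy
  have h1 : ∀ i, LL Q (xorV x y) i = false := by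
    intro i
    rw [LL_lin, hxy]
    simp [xorV]
  have h2 := LL_kerG hQ hn _ h1
  funext i
  have h3 := h2 i
  unfold xorV at h3
  simpa using h3

lemma sum_cellsG {M : Type} [AddCommMonoid M] {Q : ℕ} (hQ : 0 < Q) (hn : n ≤ Q * Q)
    (F : ℕ → ℕ → M) (hF : ∀ a b, b < Q → ¬ a * Q + b < n → F a b = 0) :
    ∑ i : Fin n, F (i.val / Q) (i.val % Q) = ∑ a ∈ range Q, ∑ b ∈ range Q, F a b := by
  rw [← sum_range_mul', Fin.sum_univ_eq_sum_range (fun k => F (k / Q) (k % Q)) n]
  apply Finset.sum_subset
  · intro k hk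
    rw [Finset.mem_range] at hk ⊢
    omega
  · intro k _ hk
    rw [Finset.mem_range] at hk
    apply hF _ _ (Nat.mod_lt _ hQ)
    have h3 : k / Q * Q + k % Q = k := by
      rw [mul_comm]; exact Nat.div_add_mod _ _
    rw [h3]
    exact hk

section Parity

variable {g h Q : ℕ} (hg : 0 < g) (hh : 0 < h) (hQ : Q = g * h) (hn : n ≤ Q * Q) (x : Cube n)
  (hx : ∀ i : Fin n, (h ∣ i.val / Q ∨ h ∣ i.val % Q) → x i = false)

include hg hh hx hn hQ

omit hx in
lemma card_castG (p : ℕ → ℕ → Prop) [∀ a b, Decidable (p a b)] :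
    ((((ones (LL Q x)).filter (fun i => p (i.val / Q) (i.val % Q))).card : ℕ) : ZMod 2) =
      ∑ a ∈ range Q, ∑ b ∈ range Q, if p a b then S Q x a b else 0 := by
  have hQ0 : 0 < Q := by rw [hQ]; exact Nat.mul_pos hg hh
  rw [Finset.card_filter, ones, Finset.sum_filter]
  push_cast
  have h1 : ∀ i : Fin n, (if LL Q x i = true then (if p (i.val / Q) (i.val % Q) then (1 : ZMod 2) else 0)
      else 0) = (fun a b => if p a b then Z Q (LL Q x) a b else 0) (i.val / Q) (i.val % Q) := by
    intro i
    simp only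
    rw [Z_valG hQ0 hn]
    split_ifs <;> rfl
  have h2 := sum_cellsG hQ0 hn (fun a b => if p a b then Z Q (LL Q x) a b else 0) (by
    intro a b hb hab
    rw [Z_out _ (by tauto)]
    simp)
  refine (Finset.sum_congr rfl (fun i _ => h1 i)).trans (h2.trans ?_)
  apply Finset.sum_congr rfl
  intro a ha
  apply Finset.sum_congr rfl
  intro b hb
  rw [Finset.mem_range] at ha hb
  rw [Z_LLG x ha hb]

lemma even_rowG (r : (Fin g × Fin g) × Fin h) :
    Even (((ones (LL Q x)).filter (fun i => ((psi g h Q hg hh i).1, (psi g h Q hg hh i).2.1) = r)).card) := by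
  rw [← ZMod.natCast_eq_zero_iff_even]
  obtain ⟨⟨i0, j0⟩, u0⟩ := r
  have hfil : (ones (LL Q x)).filter (fun i => ((psi g h Q hg hh i).1, (psi g h Q hg hh i).2.1) = ((i0, j0), u0))
      = (ones (LL Q x)).filter (fun i => (fun a b => (a / h % g = i0.val ∧ b / h % g = j0.val) ∧ a % h = u0.val)
        (i.val / Q) (i.val % Q)) := by
    apply Finset.filter_congr
    intro i _
    simp only [psi, Prod.mk.injEq, Fin.ext_iff]
  rw [hfil]
  refine (card_castG hg hh hQ hn x (fun a b => (a / h % g = i0.val ∧ b / h % g = j0.val) ∧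
    a % h = u0.val)).trans ?_
  apply Finset.sum_eq_zero
  intro a _
  by_cases ha : a / h % g = i0.val ∧ a % h = u0.val
  · have h1 : ∀ b ∈ range Q, (if (a / h % g = i0.val ∧ b / h % g = j0.val) ∧ a % h = u0.val then S Q x a b
        else 0) = (fun j v => if j % g = j0.val then S Q x a (j * h + v) else 0) (b / h) (b % h) := by
      intro b _
      simp only
      have h2 : b / h * h + b % h = b := by rw [mul_comm]; exact Nat.div_add_mod _ _
      rw [h2]
      apply if_congr _ rfl rfl
      tauto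
    rw [Finset.sum_congr rfl h1]
    conv_lhs => rw [hQ]
    rw [← hQ, hQ, sum_range_mul' g h (fun j v => if j % g = j0.val then S (g * h) x a (j * h + v) else 0)]
    apply Finset.sum_eq_zero
    intro j _
    split_ifs
    · have := row_sum (Q := Q) x hx a j
      rw [hQ] at this
      exact this
    · simp
  · apply Finset.sum_eq_zero
    intro b _
    rw [if_neg]
    tauto

lemma even_colG (r : (Fin g × Fin g) × Fin h) :
    Even (((ones (LL Q x)).filter (fun i => ((psi g h Q hg hh i).1, (psi g h Q hg hh i).2.2) = r)).card) := by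
  rw [← ZMod.natCast_eq_zero_iff_even]
  obtain ⟨⟨i0, j0⟩, u0⟩ := r
  have hfil : (ones (LL Q x)).filter (fun i => ((psi g h Q hg hh i).1, (psi g h Q hg hh i).2.2) = ((i0, j0), u0))
      = (ones (LL Q x)).filter (fun i => (fun a b => (a / h % g = i0.val ∧ b / h % g = j0.val) ∧ b % h = u0.val)
        (i.val / Q) (i.val % Q)) := by
    apply Finset.filter_congr
    intro i _
    simp only [psi, Prod.mk.injEq, Fin.ext_iff]
  rw [hfil]
  refine (card_castG hg hh hQ hn x (fun a b => (a / h % g = i0.val ∧ b / h % g = j0.val) ∧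
    b % h = u0.val)).trans ?_
  rw [Finset.sum_comm]
  apply Finset.sum_eq_zero
  intro b _
  by_cases hb : b / h % g = j0.val ∧ b % h = u0.val
  · have h1 : ∀ a ∈ range Q, (if (a / h % g = i0.val ∧ b / h % g = j0.val) ∧ b % h = u0.val then S Q x a b
        else 0) = (fun j v => if j % g = i0.val then S Q x (j * h + v) b else 0) (a / h) (a % h) := by
      intro a _
      simp only
      have h2 : a / h * h + a % h = a := by rw [mul_comm]; exact Nat.div_add_mod _ _
      rw [h2]
      apply if_congr _ rfl rfl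
      tauto
    rw [Finset.sum_congr rfl h1]
    conv_lhs => rw [hQ]
    rw [← hQ, hQ, sum_range_mul' g h (fun j v => if j % g = i0.val then S (g * h) x (j * h + v) b else 0)]
    apply Finset.sum_eq_zero
    intro j _
    split_ifs
    · have := col_sum (Q := Q) x hx b j
      rw [hQ] at this
      exact this
    · simp
  · apply Finset.sum_eq_zero
    intro a _
    rw [if_neg]
    tauto

end Parity

lemma psi_injG {g h Q : ℕ} (hg : 0 < g) (hh : 0 < h) (hQ : Q = g * h) (hn : n ≤ Q * Q) :
    Function.Injective (psi (n := n) g h Q hg hh) := by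
  intro i j hij
  have hQ0 : 0 < Q := by rw [hQ]; exact Nat.mul_pos hg hh
  simp only [psi, Prod.mk.injEq, Fin.ext_iff] at hij
  obtain ⟨⟨h1, h2⟩, h3, h4⟩ := hij
  have key : ∀ k : Fin n, k.val / Q / h % g = k.val / Q / h ∧ k.val % Q / h % g = k.val % Q / h := by
    intro k
    have hk1 : k.val % Q < Q := Nat.mod_lt _ hQ0
    have hk2 : k.val / Q < Q := by
      rw [Nat.div_lt_iff_lt_mul hQ0]
      have := k.isLt
      omega
    constructor
    · apply Nat.mod_eq_of_lt
      rw [Nat.div_lt_iff_lt_mul hh, ← hQ]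
      exact hk2
    · apply Nat.mod_eq_of_lt
      rw [Nat.div_lt_iff_lt_mul hh, ← hQ]
      exact hk1
  rw [(key i).1, (key j).1] at h1
  rw [(key i).2, (key j).2] at h2
  have e1 : i.val / Q = j.val / Q := by
    rw [← Nat.div_add_mod (i.val / Q) h, ← Nat.div_add_mod (j.val / Q) h, h1, h3]
  have e2 : i.val % Q = j.val % Q := by
    rw [← Nat.div_add_mod (i.val % Q) h, ← Nat.div_add_mod (j.val % Q) h, h2, h4]
  apply Fin.ext
  rw [← Nat.div_add_mod i.val Q, ← Nat.div_add_mod j.val Q, e1, e2]

end Pool.Agent.Helper7.ST
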