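import Pool.Graph.R_pool_sql_team_seeded_efc1946e.K1H35.ST.Code
import Pool.Agent.Helper7.ST.LatG

/-! `S_CODE` for every `n` with `4^(m-1) ≤ n + 1 ≤ 4^m` : existence of the code systems. -/

set_option autoImplicit false

noncomputable section

namespace Pool.Agent.Helper7.ST

open Finset Pool.Agent.K1H64.ST Pool.Agent.K1H35.ST

/-- The relation between the dimension and the size of the square. -/
def Rel (m n : ℕ) : Prop := n + 1 ≤ 4 ^ m ∧ 4 ^ m ≤ 4 * (n + 1)

/-- (M10) for all dimensions. -/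
def S_CODEG : Prop := ∀ b : ℕ, 1 ≤ b → ∃ K : ℕ → ℝ, ∀ m n : ℕ, b ≤ m → 1 ≤ n → Rel m n →
  ∃ (L : Cube n → Cube n) (B : ℕ → Finset (Fin n)), CodeSys b K m n L B

lemma BB_cardG {β m n : ℕ} (hn : n ≤ 4 ^ m) (c : ℕ) :
    ((BB β m n c).card : ℝ) ≤ 2 ^ (c + β + 2) * 2 ^ m := by
  have h4 : (4:ℕ) ^ m = 2 ^ m * 2 ^ m := by rw [← mul_pow]; norm_num
  have hQ0 : 0 < 2 ^ m := by positivity
  have hnat : (BB β m n c).card ≤ 2 ^ (c + β + 2) * 2 ^ m := by
    unfold BB
    split_ifs with h1
    · have hQ : 2 ^ m = 2 ^ (c + β) * 2 ^ (m - (c + β)) := by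
        rw [← pow_add]; congr 1; omega
      have hh : 0 < 2 ^ (m - (c + β)) := by positivity
      generalize 2 ^ (m - (c + β)) = h at hQ hh
      rw [Finset.filter_or]
      refine (Finset.card_union_le _ _).trans ?_
      have e1 : (univ.filter (fun i : Fin n => h ∣ i.val / 2 ^ m)).card ≤ 2 ^ (c + β) * 2 ^ m := by
        calc (univ.filter (fun i : Fin n => h ∣ i.val / 2 ^ m)).card
            ≤ (range (2 ^ (c + β)) ×ˢ range (2 ^ m)).card := by
              apply Finset.card_le_card_of_injOn (fun i : Fin n => (i.val / 2 ^ m / h, i.val % 2 ^ m))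
              · intro i hi
                rw [Finset.mem_coe, Finset.mem_filter] at hi
                rw [Finset.mem_coe, Finset.mem_product, Finset.mem_range, Finset.mem_range]
                refine ⟨?_, Nat.mod_lt _ hQ0⟩
                simp only
                rw [Nat.div_lt_iff_lt_mul hh, ← hQ, Nat.div_lt_iff_lt_mul hQ0, ← h4]
                have := i.isLt
                omega
              · intro i hi j hj hij
                rw [Finset.mem_coe, Finset.mem_filter] at hi hj
                simp only [Prod.mk.injEq] at hij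
                apply Fin.ext
                have e2 : i.val / 2 ^ m = j.val / 2 ^ m := by
                  rw [← Nat.div_mul_cancel hi.2, ← Nat.div_mul_cancel hj.2, hij.1]
                rw [← Nat.div_add_mod i.val (2 ^ m), ← Nat.div_add_mod j.val (2 ^ m), e2, hij.2]
          _ = 2 ^ (c + β) * 2 ^ m := by simp
      have e2 : (univ.filter (fun i : Fin n => h ∣ i.val % 2 ^ m)).card ≤ 2 ^ m * 2 ^ (c + β) := by
        calc (univ.filter (fun i : Fin n => h ∣ i.val % 2 ^ m)).card
            ≤ (range (2 ^ m) ×ˢ range (2 ^ (c + β))).card := by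
              apply Finset.card_le_card_of_injOn (fun i : Fin n => (i.val / 2 ^ m, i.val % 2 ^ m / h))
              · intro i hi
                rw [Finset.mem_coe, Finset.mem_filter] at hi
                rw [Finset.mem_coe, Finset.mem_product, Finset.mem_range, Finset.mem_range]
                simp only
                refine ⟨?_, ?_⟩
                · rw [Nat.div_lt_iff_lt_mul hQ0, ← h4]
                  have := i.isLt
                  omega
                · rw [Nat.div_lt_iff_lt_mul hh, ← hQ]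
                  exact Nat.mod_lt _ hQ0
              · intro i hi j hj hij
                rw [Finset.mem_coe, Finset.mem_filter] at hi hj
                simp only [Prod.mk.injEq] at hij
                apply Fin.ext
                have e2 : i.val % 2 ^ m = j.val % 2 ^ m := by
                  rw [← Nat.div_mul_cancel hi.2, ← Nat.div_mul_cancel hj.2, hij.2]
                rw [← Nat.div_add_mod i.val (2 ^ m), ← Nat.div_add_mod j.val (2 ^ m), e2, hij.1]
          _ = 2 ^ m * 2 ^ (c + β) := by simp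
      have e3 : 2 ^ (c + β + 2) * 2 ^ m = 4 * (2 ^ (c + β) * 2 ^ m) := by rw [pow_add]; ring
      rw [e3]
      rw [mul_comm (2 ^ m) (2 ^ (c + β))] at e2
      omega
    · rw [Finset.card_univ, Fintype.card_fin]
      have e1 : 2 ^ m ≤ 2 ^ (c + β + 2) := Nat.pow_le_pow_right (by norm_num) (by omega)
      have e2 : 2 ^ m * 2 ^ m ≤ 2 ^ (c + β + 2) * 2 ^ m := Nat.mul_le_mul_right _ e1
      omega
  exact_mod_cast hnat

theorem t_CODEG (hT : S_TUP) : S_CODEG := by
  classical
  intro β hβ
  refine ⟨fun j => (j.factorial : ℝ) ^ 2 * 2 ^ ((β + 3) * j), fun m n hm hn1 hRel => ?_⟩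
  obtain ⟨hn, hn'⟩ := hRel
  have h4 : (4:ℕ) ^ m = 2 ^ m * 2 ^ m := by rw [← mul_pow]; norm_num
  have hQ0 : 0 < 2 ^ m := by positivity
  have hnQ : n ≤ 2 ^ m * 2 ^ m := by rw [← h4]; omega
  refine ⟨LL (2 ^ m), BB β m n, ?_, LL_lin _, LL_row hQ0, LL_col, BB_mono β m n,
    BB_cardG (by omega), ?_, ?_⟩
  · exact LL_bijG hQ0 hnQ
  · intro c hc z hz hz2
    have hQ : 2 ^ m = 2 ^ (c + β) * 2 ^ (m - (c + β)) := by
      rw [← pow_add]; congr 1; omega
    have hg : 0 < 2 ^ (c + β) := by positivity
    have hh : 0 < 2 ^ (m - (c + β)) := by positivity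
    have hx : ∀ x : Cube n, (∀ i ∈ BB β m n c, x i = false) → ∀ i : Fin n,
        (2 ^ (m - (c + β)) ∣ i.val / 2 ^ m ∨ 2 ^ (m - (c + β)) ∣ i.val % 2 ^ m) → x i = false := by
      intro x hx i hi
      apply hx
      unfold BB
      rw [if_pos hc, Finset.mem_filter]
      exact ⟨Finset.mem_univ _, hi⟩
    have hcode : ∀ E ∈ code (LL (n := n) (2 ^ m)) (BB β m n c), ∃ x : Cube n, (∀ i ∈ BB β m n c, x i = false) ∧
        E = ones (LL (2 ^ m) x) := by
      intro E hE
      unfold code at hE
      rw [Finset.mem_image] at hE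
      obtain ⟨x, hx1, rfl⟩ := hE
      rw [Finset.mem_filter] at hx1
      exact ⟨x, hx1.2.1, rfl⟩
    have h1 := enum_abs (psi (n := n) (2 ^ (c + β)) (2 ^ (m - (c + β))) (2 ^ m) hg hh)
      (psi_injG hg hh hQ hnQ) (code (LL (n := n) (2 ^ m)) (BB β m n c))
      (by
        intro E hE r
        obtain ⟨x, hx1, rfl⟩ := hcode E hE
        exact even_rowG hg hh hQ hnQ x (hx x hx1) r)
      (by
        intro E hE r
        obtain ⟨x, hx1, rfl⟩ := hcode E hE
        exact even_colG hg hh hQ hnQ x (hx x hx1) r) z hz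
    refine h1.trans ?_
    have h2 : ∑ F ∈ Ev (2 ^ (m - (c + β))), z ^ F.card ≤ 2 := by
      apply gen_le _ hh z hz
      push_cast
      have hp : (0:ℝ) < 2 ^ (c + β) := by positivity
      have e1 : (2:ℝ) ^ (c + β) * (2 ^ (m - (c + β)) * z) ≤ 2 ^ (c + β) * (1 / 2) := by
        have e2 : (2:ℝ) ^ m = 2 ^ (c + β) * 2 ^ (m - (c + β)) := by exact_mod_cast hQ
        rw [← mul_assoc, ← e2, pow_add]
        linarith
      exact le_of_mul_le_mul_left e1 hp
    have h3 : Fintype.card (Fin (2 ^ (c + β)) × Fin (2 ^ (c + β))) = 4 ^ (c + β) := by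
      rw [Fintype.card_prod, Fintype.card_fin, ← mul_pow]
      norm_num
    rw [h3]
    apply pow_le_pow_left₀ _ h2
    exact Finset.sum_nonneg (fun F _ => pow_nonneg hz _)
  · intro j k hjk hkn
    have hc : 0 + β ≤ m := by omega
    have hQ : 2 ^ m = 2 ^ (0 + β) * 2 ^ (m - (0 + β)) := by
      rw [← pow_add]; congr 1; omega
    have hg : 0 < 2 ^ (0 + β) := by positivity
    have hh : 0 < 2 ^ (m - (0 + β)) := by positivity
    have hx : ∀ x : Cube n, (∀ i ∈ BB β m n 0, x i = false) → ∀ i : Fin n,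
        (2 ^ (m - (0 + β)) ∣ i.val / 2 ^ m ∨ 2 ^ (m - (0 + β)) ∣ i.val % 2 ^ m) → x i = false := by
      intro x hx i hi
      apply hx
      unfold BB
      rw [if_pos hc, Finset.mem_filter]
      exact ⟨Finset.mem_univ _, hi⟩
    have hcode : ∀ E ∈ (code (LL (n := n) (2 ^ m)) (BB β m n 0)).filter (fun E => E.card = k),
        ∃ x : Cube n, (∀ i ∈ BB β m n 0, x i = false) ∧ E = ones (LL (2 ^ m) x) := by
      intro E hE
      rw [Finset.mem_filter] at hE
      unfold code at hE
      rw [Finset.mem_image] at hE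
      obtain ⟨⟨x, hx1, rfl⟩, _⟩ := hE
      rw [Finset.mem_filter] at hx1
      exact ⟨x, hx1.2.1, rfl⟩
    have : Nonempty (Fin (2 ^ (0 + β))) := ⟨⟨0, hg⟩⟩
    have : Nonempty (Fin (2 ^ (m - (0 + β)))) := ⟨⟨0, hh⟩⟩
    have h1 := sparse_abs hT (k := k) (j := j)
      (fun i : Fin n => ((psi (2 ^ (0 + β)) (2 ^ (m - (0 + β))) (2 ^ m) hg hh i).1,
        (psi (2 ^ (0 + β)) (2 ^ (m - (0 + β))) (2 ^ m) hg hh i).2.1))
      (fun i : Fin n => ((psi (2 ^ (0 + β)) (2 ^ (m - (0 + β))) (2 ^ m) hg hh i).1,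
        (psi (2 ^ (0 + β)) (2 ^ (m - (0 + β))) (2 ^ m) hg hh i).2.2))
      (by
        intro i i' hi hi'
        simp only [Prod.mk.injEq] at hi hi'
        apply psi_injG hg hh hQ hnQ
        exact Prod.ext hi.1 (Prod.ext hi.2 hi'.2))
      ((code (LL (n := n) (2 ^ m)) (BB β m n 0)).filter (fun E => E.card = k))
      (by
        intro E hE
        exact (Finset.mem_filter.mp hE).2)
      (by
        intro E hE r
        obtain ⟨x, hx1, rfl⟩ := hcode E hE
        exact even_rowG hg hh hQ hnQ x (hx x hx1) r)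
      (by
        intro E hE r
        obtain ⟨x, hx1, rfl⟩ := hcode E hE
        exact even_colG hg hh hQ hnQ x (hx x hx1) r)
    have hR : (Fintype.card ((Fin (2 ^ (0 + β)) × Fin (2 ^ (0 + β))) × Fin (2 ^ (m - (0 + β)))) : ℝ) =
        2 ^ (m + β) := by
      rw [Fintype.card_prod, Fintype.card_prod, Fintype.card_fin, Fintype.card_fin]
      push_cast
      rw [← pow_add, ← pow_add]
      congr 1
      omega
    rw [hR] at h1
    have hsq : (Real.sqrt (2 ^ (m + β))) ^ j * (Real.sqrt (2 ^ (m + β))) ^ j = 2 ^ (m * j) * 2 ^ (β * j) := by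
      rw [← mul_pow, Real.mul_self_sqrt (by positivity), ← pow_mul, ← pow_add]
      congr 1
      ring
    have h1' : ((((code (LL (n := n) (2 ^ m)) (BB β m n 0)).filter (fun E => E.card = k)).card : ℕ) : ℝ) *
        (k.descFactorial j : ℝ) ≤ (n.choose (k - j) : ℝ) * ((j.factorial : ℝ) ^ 2 *
          (2 ^ (m * j) * 2 ^ (β * j))) := by
      refine h1.trans (le_of_eq ?_)
      rw [← hsq]
      ring
    -- comparison of binomial coefficients
    have hkn' : k ≤ n := by omega
    have hch : n.choose k * k.descFactorial j = n.choose (k - j) * (n - k + j).descFactorial j := by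
      rw [Nat.descFactorial_eq_factorial_mul_choose, Nat.descFactorial_eq_factorial_mul_choose]
      have e1 := Nat.choose_mul (n := n) (k := k) (s := k - j) (by omega)
      have e2 : n - (k - j) = n - k + j := by omega
      have e3 : k - (k - j) = j := by omega
      rw [e2, e3, Nat.choose_symm hjk] at e1
      calc n.choose k * (j.factorial * k.choose j) = j.factorial * (n.choose k * k.choose j) := by ring
        _ = j.factorial * (n.choose (k - j) * (n - k + j).choose j) := by rw [e1]
        _ = _ := by ring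
    have hdf : (n - k + 1) ^ j ≤ (n - k + j).descFactorial j := by
      have := Nat.pow_sub_le_descFactorial (n - k + j) j
      have e1 : n - k + j + 1 - j = n - k + 1 := by omega
      rwa [e1] at this
    have hbig : 2 ^ m * 2 ^ m ≤ 8 * (n - k + 1) := by
      rw [← h4]; omega
    have hbig2 : (2 ^ m * 2 ^ m) ^ j ≤ 8 ^ j * (n - k + j).descFactorial j := by
      calc (2 ^ m * 2 ^ m) ^ j ≤ (8 * (n - k + 1)) ^ j := Nat.pow_le_pow_left hbig j
        _ = 8 ^ j * (n - k + 1) ^ j := by rw [mul_pow]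
        _ ≤ _ := Nat.mul_le_mul_left _ hdf
    have hsqn : Real.sqrt ((n : ℝ) + 1) ≤ 2 ^ m := by
      rw [Real.sqrt_le_left (by positivity)]
      have : ((n + 1 : ℕ) : ℝ) ≤ ((4 ^ m : ℕ) : ℝ) := by exact_mod_cast hn
      rw [h4] at this
      push_cast at this
      linarith
    have hsqpos : 0 < Real.sqrt ((n : ℝ) + 1) := Real.sqrt_pos.2 (by positivity)
    rw [le_div_iff₀ (by positivity)]
    have hdpos : (0:ℝ) < (k.descFactorial j : ℝ) := by
      have : 0 < k.descFactorial j := by
        rw [Nat.pos_iff_ne_zero, Ne, Nat.descFactorial_eq_zero_iff_lt]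
        omega
      exact_mod_cast this
    apply le_of_mul_le_mul_right _ hdpos
    set N : ℝ := ((((code (LL (n := n) (2 ^ m)) (BB β m n 0)).filter (fun E => E.card = k)).card : ℕ) : ℝ)
    have hN0 : 0 ≤ N := Nat.cast_nonneg _
    have hchR : (n.choose k : ℝ) * (k.descFactorial j : ℝ) =
        (n.choose (k - j) : ℝ) * ((n - k + j).descFactorial j : ℝ) := by exact_mod_cast hch
    have hbigR : ((2:ℝ) ^ m * 2 ^ m) ^ j ≤ 8 ^ j * ((n - k + j).descFactorial j : ℝ) := by
      exact_mod_cast hbig2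
    have h8 : (8 : ℝ) ^ j = 2 ^ (3 * j) := by rw [pow_mul]; norm_num
    calc N * (Real.sqrt ((n : ℝ) + 1)) ^ j * (k.descFactorial j : ℝ)
        ≤ N * (2 ^ m) ^ j * (k.descFactorial j : ℝ) := by gcongr
      _ = (N * (k.descFactorial j : ℝ)) * (2 ^ m) ^ j := by ring
      _ ≤ ((n.choose (k - j) : ℝ) * ((j.factorial : ℝ) ^ 2 * (2 ^ (m * j) * 2 ^ (β * j)))) * (2 ^ m) ^ j := by
          gcongr
      _ = (n.choose (k - j) : ℝ) * (j.factorial : ℝ) ^ 2 * 2 ^ (β * j) * ((2 ^ m * 2 ^ m) ^ j) := by
          rw [mul_pow, pow_mul]; ring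
      _ ≤ (n.choose (k - j) : ℝ) * (j.factorial : ℝ) ^ 2 * 2 ^ (β * j) *
          (8 ^ j * ((n - k + j).descFactorial j : ℝ)) := by
          gcongr
      _ = (j.factorial : ℝ) ^ 2 * 2 ^ ((β + 3) * j) * ((n.choose (k - j) : ℝ) *
          ((n - k + j).descFactorial j : ℝ)) := by
          rw [h8, add_mul, pow_add]; ring
      _ = _ := by rw [← hchR]; ring

end Pool.Agent.Helper7.ST
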