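import Pool.Agent.Helper7.ST.StrfG
import Pool.Graph.R_pool_sql_team_seeded_efc1946e.K1H64.ST.Fin2
import Pool.Graph.R_pool_sql_team_seeded_efc1946e.K1H37.ST.Pot
import Pool.Graph.R_pool_sql_team_seeded_efc1946e.K1H37.ST.NF
import Pool.Graph.R_pool_sql_team_seeded_efc1946e.K1H37.ST.Tup
import Pool.Graph.R_pool_sql_team_seeded_efc1946e.K1H37.ST.Match
import Pool.Graph.R_pool_sql_team_seeded_efc1946e.K1H37.ST.Prob
import Pool.Graph.R_pool_sql_team_seeded_efc1946e.K1H37.ST.Joint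
import Pool.Graph.R_pool_sql_team_seeded_efc1946e.K1H44.ST.Tail
import Pool.Graph.R_pool_sql_team_seeded_efc1946e.K1H85.ST.Line
import Pool.Graph.R_pool_sql_team_seeded_efc1946e.K1H85.ST.Rank
import Pool.Graph.R_pool_sql_team_seeded_efc1946e.K1H85.ST.Ze
import Pool.Graph.R_pool_sql_team_seeded_efc1946e.K1H9.ST.Col
import Pool.Graph.R_pool_sql_team_seeded_efc1946e.K1H9.ST.Str
import Pool.Graph.R_pool_sql_team_seeded_efc1946e.K1H90.ST.Eta
import Pool.Graph.R_pool_sql_team_seeded_efc1946e.K1H90.ST.Thr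
import Pool.Graph.R_pool_sql_team_seeded_efc1946e.K1H25.ST.Sys
import Pool.Graph.R_pool_sql_team_seeded_efc1946e.K1H35.ST.Code

/-! # Half II in all dimensions, and the bijection theorem -/

set_option autoImplicit false

noncomputable section

namespace Pool.Agent.Helper7.ST

open Finset Pool.Agent.K1H64.ST

/-- `S_FIN` with the relation `Rel m n` in place of `n + 1 = 4 ^ m`. -/
def S_FING : Prop := ∀ C : ℝ, 1 ≤ C → ∃ C' : ℝ, ∃ m0 : ℕ, ∀ m ≥ m0, ∀ n : ℕ, Rel m n →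
  ∀ (A : Finset (Cube (n + 1))), A.card = 2 ^ n → ∀ (N : ℕ)
  (T : Cube n → Fin N → Cube (n + 1)) (cl : Cube n → Fin N → ℕ) (cm : ℕ), Sys C n A N T cl cm →
  ∃ g : Cube n → Cube (n + 1), Function.Injective g ∧ Set.range g = (A : Set (Cube (n + 1))) ∧
    ∑ x : Cube n, ∑ i : Fin n, (hammingDist (g x) (g (flipV {i} x)) : ℝ) ≤ C' * (n * 2 ^ n)

theorem t_FING (hVAR : S_VARG) (hMe : S_MEAN) (hSTRF : S_STRFG) (hMATCH : S_MATCH)
    (hCODE : S_CODEG) : S_FING := by
  classical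
  intro C hC
  obtain ⟨b, hb1, hVK⟩ := hVAR C hC
  obtain ⟨K, hK⟩ := hCODE b hb1
  obtain ⟨ρ, m0, hV⟩ := hVK K
  obtain ⟨C1, hC1, m1, hS1⟩ := hSTRF C b K hC hb1
  refine ⟨2 * (2 * ρ + (3 + 9 * C)) + 6 * C1, m0 + m1 + b + 2, ?_⟩
  intro m hm n hnm A hA N T cl cm hS
  have hn1 : 1 ≤ n := by
    have h41 : 4 ^ 2 ≤ 4 ^ m := Nat.pow_le_pow_right (by norm_num) (by omega)
    have := hnm.2
    omega
  obtain ⟨L, B, hcs⟩ := hK m n (by omega) hn1 hnm
  have hVm := hV m (by omega) n hnm A N T cl cm hS L B hcs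
  have hSm := hS1 m (by omega) n hnm A N T cl cm hS L B hcs
  have hn0 : (0 : ℝ) ≤ n := by positivity
  have hn1R : (1 : ℝ) ≤ n := by exact_mod_cast hn1
  have hnp : (0 : ℝ) < (n : ℝ) + 1 := by linarith
  have hn1' : (1 : ℝ) ≤ (n : ℝ) + 1 := by linarith
  have hNpos : 0 < N := hS.posN
  have : Nonempty (Fin N) := ⟨⟨0, hNpos⟩⟩
  have h2n : (0 : ℝ) < 2 ^ n := by positivity
  -- choose π and R
  obtain ⟨X, hX⟩ : ∃ X : Equiv.Perm (Fin n) × Rnd n N cm → ℝ, X = fun q =>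
      (∑ i : Fin n, ∑ x : Cube n, (hammingDist (FF T cl L B q.1 q.2 x)
        (FF T cl L B q.1 q.2 (flipV {i} x)) : ℝ)) / (C1 * (n + 1) * 2 ^ n) := ⟨_, rfl⟩
  obtain ⟨Y, hY⟩ : ∃ Y : Equiv.Perm (Fin n) × Rnd n N cm → ℝ, Y = fun q =>
      (∑ y : Cube (n + 1), (∑ z, (NN T cl L B q.1 q.2 z - mean T cl cm z) * PK ρ z y) ^ 2) /
        (2 ^ n / (n + 1) ^ 6) := ⟨_, rfl⟩
  obtain ⟨Z, hZ⟩ : ∃ Z : Equiv.Perm (Fin n) × Rnd n N cm → ℝ, Z = fun q =>
      ((univ.filter (fun x => ¬ good cl L B q.1 q.2 x)).card : ℝ) / (2 * C * 2 ^ n / (n + 1) ^ 4) :=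
    ⟨_, rfl⟩
  have hX0 : ∀ q, 0 ≤ X q := fun q => by
    rw [hX]; exact div_nonneg (sum_nonneg fun i _ => sum_nonneg fun x _ => by positivity) (by positivity)
  have hY0 : ∀ q, 0 ≤ Y q := fun q => by
    rw [hY]; exact div_nonneg (sum_nonneg fun y _ => sq_nonneg _) (by positivity)
  have hZ0 : ∀ q, 0 ≤ Z q := fun q => by
    rw [hZ]; positivity
  have hcardQ : (((univ : Finset (Equiv.Perm (Fin n) × Rnd n N cm)).card : ℕ) : ℝ) =
      (Fintype.card (Equiv.Perm (Fin n)) : ℝ) * (Fintype.card (Rnd n N cm) : ℝ) := by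
    rw [card_univ, Fintype.card_prod]; push_cast; ring
  obtain ⟨PR, hPR⟩ : ∃ PR : ℝ, PR = (Fintype.card (Equiv.Perm (Fin n)) : ℝ) *
    (Fintype.card (Rnd n N cm) : ℝ) := ⟨_, rfl⟩
  have hsX : ∑ q, X q ≤ PR := by
    rw [hX, ← sum_div, div_le_iff₀ (by positivity), Fintype.sum_prod_type]
    calc ∑ π : Equiv.Perm (Fin n), ∑ R : Rnd n N cm, ∑ i : Fin n, ∑ x : Cube n,
          (hammingDist (FF T cl L B π R x) (FF T cl L B π R (flipV {i} x)) : ℝ)
        ≤ ∑ π : Equiv.Perm (Fin n), C1 * (n + 1) * 2 ^ n * (Fintype.card (Rnd n N cm) : ℝ) :=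
          sum_le_sum fun π _ => hSm π
      _ = _ := by
        rw [sum_const, card_univ, nsmul_eq_mul, hPR]; ring
  have hsY : ∑ q, Y q ≤ PR := by
    rw [hY, ← sum_div, div_le_iff₀ (by positivity), Fintype.sum_prod_type]
    refine hVm.trans (le_of_eq ?_)
    rw [hPR]; ring
  have hsZ : ∑ q, Z q ≤ PR := by
    rw [hZ, ← sum_div, div_le_iff₀ (by positivity), Fintype.sum_prod_type]
    calc ∑ π : Equiv.Perm (Fin n), ∑ R : Rnd n N cm,
          ((univ.filter (fun x => ¬ good cl L B π R x)).card : ℝ)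
        ≤ ∑ π : Equiv.Perm (Fin n), (Fintype.card (Rnd n N cm) : ℝ) * (2 * C * 2 ^ n / (n + 1) ^ 4) :=
          sum_le_sum fun π _ => bad_sum hMe hC hS L hcs.bij B π
      _ = _ := by
        rw [sum_const, card_univ, nsmul_eq_mul, hPR]; ring
  obtain ⟨q, _, hq⟩ := exists_le_of_sum_le (s := (univ : Finset (Equiv.Perm (Fin n) × Rnd n N cm)))
    (f := fun q => X q + Y q + Z q) (g := fun _ => (3 : ℝ)) univ_nonempty (by
      rw [sum_add_distrib, sum_add_distrib, sum_const, nsmul_eq_mul, hcardQ, ← hPR]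
      linarith)
  have hqX : X q ≤ 3 := by have := hY0 q; have := hZ0 q; linarith
  have hqY : Y q ≤ 3 := by have := hX0 q; have := hZ0 q; linarith
  have hqZ : Z q ≤ 3 := by have := hX0 q; have := hY0 q; linarith
  obtain ⟨π, R⟩ := q
  rw [hX] at hqX
  rw [hY] at hqY
  rw [hZ] at hqZ
  simp only at hqX hqY hqZ
  rw [div_le_iff₀ (by positivity)] at hqX hqY hqZ
  -- the matching
  obtain ⟨g, hg1, hg2, hg3⟩ := hMATCH n ρ A hA (FF T cl L B π R)
  refine ⟨g, hg1, hg2, ?_⟩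
  -- the L1 bound
  have hL1 : ∑ y : Cube (n + 1), |∑ z, (((univ.filter (fun x => FF T cl L B π R x = z)).card : ℝ) -
      if z ∈ A then 1 else 0) * PK ρ z y| ≤ (3 + 9 * C) * 2 ^ n / (n + 1) := by
    have e1 : ∀ z, ((univ.filter (fun x => FF T cl L B π R x = z)).card : ℝ) = NN T cl L B π R z +
        ((univ.filter (fun x => ¬ good cl L B π R x ∧ FF T cl L B π R x = z)).card : ℝ) := by
      intro z
      unfold NN
      have := card_filter_add_card_filter_not (s := univ.filter (fun x => FF T cl L B π R x = z))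
        (fun x => good cl L B π R x)
      rw [← Nat.cast_add, ← this, filter_filter, filter_filter]
      congr 2 <;> (congr 1; ext x; simp only [mem_filter, mem_univ, true_and]; tauto)
    simp_rw [e1]
    refine (L1_bound (NN T cl L B π R) (mean T cl cm) (fun z => if z ∈ A then 1 else 0)
      (fun z => ((univ.filter (fun x => ¬ good cl L B π R x ∧ FF T cl L B π R x = z)).card : ℝ))
      (fun z => by positivity) (3 * (2 ^ n / (n + 1) ^ 6)) hqY).trans ?_
    have e2 : ∑ z, ((univ.filter (fun x => ¬ good cl L B π R x ∧ FF T cl L B π R x = z)).card : ℝ) =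
        ((univ.filter (fun x => ¬ good cl L B π R x)).card : ℝ) := by
      rw [← Nat.cast_sum]
      congr 1
      rw [card_eq_sum_card_fiberwise (t := (univ : Finset (Cube (n + 1))))
        (f := fun x => FF T cl L B π R x) (fun _ _ => mem_coe.2 (mem_univ _))]
      refine sum_congr rfl fun z _ => ?_
      rw [filter_filter]
    rw [e2]
    have e3 := mean_close hC hS hA
    have e4 : Real.sqrt (2 ^ (n + 1) * (3 * (2 ^ n / (n + 1) ^ 6))) ≤ 3 * 2 ^ n / ((n : ℝ) + 1) := by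
      refine Real.sqrt_le_iff.2 ⟨by positivity, ?_⟩
      have : (2 : ℝ) ^ (n + 1) * (3 * (2 ^ n / (n + 1) ^ 6)) = 6 * (2 ^ n) ^ 2 / (n + 1) ^ 6 := by
        rw [pow_succ]; ring
      rw [this, div_pow, mul_pow, div_le_div_iff₀ (by positivity) (by positivity)]
      have h6 : ((n : ℝ) + 1) ^ 2 ≤ (n + 1) ^ 6 := pow_le_pow_right₀ hn1' (by norm_num)
      have h7 : (0 : ℝ) ≤ (2 ^ n) ^ 2 := by positivity
      calc 6 * ((2 : ℝ) ^ n) ^ 2 * ((n : ℝ) + 1) ^ 2 ≤ 6 * ((2 : ℝ) ^ n) ^ 2 * ((n : ℝ) + 1) ^ 6 :=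
            mul_le_mul_of_nonneg_left h6 (by positivity)
        _ ≤ 3 ^ 2 * ((2 : ℝ) ^ n) ^ 2 * ((n : ℝ) + 1) ^ 6 := by
          have h8 : (0:ℝ) ≤ ((2 : ℝ) ^ n) ^ 2 * ((n : ℝ) + 1) ^ 6 := by positivity
          nlinarith
    have e5 : ∀ D : ℝ, 0 ≤ D → D * 2 ^ n / ((n : ℝ) + 1) ^ 4 ≤ D * 2 ^ n / (n + 1) := by
      intro D hD
      refine div_le_div_of_nonneg_left (by positivity) hnp ?_
      calc (n : ℝ) + 1 = (n + 1) ^ 1 := (pow_one _).symm
        _ ≤ (n + 1) ^ 4 := pow_le_pow_right₀ hn1' (by norm_num)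
    have e6 : 3 * (2 * C * 2 ^ n / ((n : ℝ) + 1) ^ 4) ≤ (6 * C) * 2 ^ n / (n + 1) := by
      refine le_trans (le_of_eq ?_) (e5 (6 * C) (by linarith))
      ring
    have e7 : 3 * C * 2 ^ n / ((n : ℝ) + 1) ^ 4 ≤ (3 * C) * 2 ^ n / (n + 1) := e5 (3 * C) (by linarith)
    calc _ ≤ 3 * 2 ^ n / ((n : ℝ) + 1) + (6 * C) * 2 ^ n / (n + 1) + (3 * C) * 2 ^ n / (n + 1) :=
          add_le_add (add_le_add e4 (hqZ.trans e6)) (e3.trans e7)
      _ = _ := by ring
  have hdist : ∑ x, (hammingDist (FF T cl L B π R x) (g x) : ℝ) ≤ (2 * ρ + (3 + 9 * C)) * 2 ^ n := by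
    refine hg3.trans ?_
    calc _ ≤ 2 * ρ * 2 ^ n + ((n : ℝ) + 1) * ((3 + 9 * C) * 2 ^ n / (n + 1)) := by
          refine add_le_add le_rfl (mul_le_mul_of_nonneg_left hL1 hnp.le)
      _ = _ := by field_simp
  have hst : ∑ i : Fin n, ∑ x : Cube n, (hammingDist (FF T cl L B π R x)
        (FF T cl L B π R (flipV {i} x)) : ℝ) ≤ 3 * (C1 * (n + 1) * 2 ^ n) := hqX
  -- triangle inequality
  have htri : ∀ x i, (hammingDist (g x) (g (flipV {i} x)) : ℝ) ≤
      (hammingDist (FF T cl L B π R x) (g x) : ℝ) +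
      (hammingDist (FF T cl L B π R x) (FF T cl L B π R (flipV {i} x)) : ℝ) +
      (hammingDist (FF T cl L B π R (flipV {i} x)) (g (flipV {i} x)) : ℝ) := by
    intro x i
    have h1 := hammingDist_triangle (g x) (FF T cl L B π R x) (g (flipV {i} x))
    have h2 := hammingDist_triangle (FF T cl L B π R x) (FF T cl L B π R (flipV {i} x)) (g (flipV {i} x))
    rw [hammingDist_comm (g x) (FF T cl L B π R x)] at h1
    have h3 : hammingDist (g x) (g (flipV {i} x)) ≤ hammingDist (FF T cl L B π R x) (g x) +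
      hammingDist (FF T cl L B π R x) (FF T cl L B π R (flipV {i} x)) +
      hammingDist (FF T cl L B π R (flipV {i} x)) (g (flipV {i} x)) := by omega
    exact_mod_cast h3
  calc ∑ x : Cube n, ∑ i : Fin n, (hammingDist (g x) (g (flipV {i} x)) : ℝ)
      ≤ ∑ x : Cube n, ∑ i : Fin n, ((hammingDist (FF T cl L B π R x) (g x) : ℝ) +
      (hammingDist (FF T cl L B π R x) (FF T cl L B π R (flipV {i} x)) : ℝ) +
      (hammingDist (FF T cl L B π R (flipV {i} x)) (g (flipV {i} x)) : ℝ)) :=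
        sum_le_sum fun x _ => sum_le_sum fun i _ => htri x i
    _ = 2 * (n * ∑ x, (hammingDist (FF T cl L B π R x) (g x) : ℝ)) +
        ∑ i : Fin n, ∑ x : Cube n, (hammingDist (FF T cl L B π R x)
        (FF T cl L B π R (flipV {i} x)) : ℝ) := by
        simp_rw [sum_add_distrib]
        have s1 : ∑ x : Cube n, ∑ i : Fin n, (hammingDist (FF T cl L B π R x) (g x) : ℝ) =
            n * ∑ x, (hammingDist (FF T cl L B π R x) (g x) : ℝ) := by
          simp_rw [sum_const, card_univ, Fintype.card_fin, nsmul_eq_mul]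
          rw [← mul_sum]
        have s2 : ∑ x : Cube n, ∑ i : Fin n,
            (hammingDist (FF T cl L B π R (flipV {i} x)) (g (flipV {i} x)) : ℝ) =
            n * ∑ x, (hammingDist (FF T cl L B π R x) (g x) : ℝ) := by
          rw [sum_comm]
          have : ∀ i : Fin n, ∑ x : Cube n,
              (hammingDist (FF T cl L B π R (flipV {i} x)) (g (flipV {i} x)) : ℝ) =
              ∑ x, (hammingDist (FF T cl L B π R x) (g x) : ℝ) := fun i =>
            sum_flipV {i} (fun x => (hammingDist (FF T cl L B π R x) (g x) : ℝ))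
          simp_rw [this]
          rw [sum_const, card_univ, Fintype.card_fin, nsmul_eq_mul]
        rw [s1, s2, sum_comm (s := univ) (t := univ)
          (f := fun (x : Cube n) (i : Fin n) => (hammingDist (FF T cl L B π R x)
            (FF T cl L B π R (flipV {i} x)) : ℝ))]
        ring
    _ ≤ 2 * (n * ((2 * ρ + (3 + 9 * C)) * 2 ^ n)) + 3 * (C1 * (n + 1) * 2 ^ n) := by
        gcongr
    _ ≤ 2 * (n * ((2 * ρ + (3 + 9 * C)) * 2 ^ n)) + 3 * (C1 * (2 * n) * 2 ^ n) := by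
        have : (n : ℝ) + 1 ≤ 2 * n := by linarith
        gcongr
    _ = _ := by ring


/-- Every dimension `n ≥ 1` has an admissible `m`, and `m` is large when `n` is. -/
theorem exists_rel (n : ℕ) (m0 : ℕ) (hn : 4 ^ m0 ≤ n + 1) : ∃ m, m0 ≤ m ∧ Rel m n := by
  classical
  have hex : ∃ m, n + 1 ≤ 4 ^ m := ⟨n + 1, (Nat.lt_pow_self (by norm_num)).le⟩
  obtain ⟨m, hm, hmin⟩ : ∃ m, n + 1 ≤ 4 ^ m ∧ ∀ k < m, 4 ^ k < n + 1 :=
    ⟨Nat.find hex, Nat.find_spec hex, fun k hk => not_le.1 (Nat.find_min hex hk)⟩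
  refine ⟨m, ?_, hm, ?_⟩
  · exact (Nat.pow_le_pow_iff_right (by norm_num : 1 < 4)).1 (hn.trans hm)
  · rcases Nat.eq_zero_or_pos m with rfl | hpos
    · rw [pow_zero]
      omega
    · have h1 := hmin (m - 1) (by omega)
      have h2 : 4 ^ m = 4 * 4 ^ (m - 1) := by
        rw [← pow_succ']
        congr 1
        omega
      omega

theorem update_eq_flipV {n : ℕ} (x : Cube n) (i : Fin n) :
    Function.update x i (!x i) = flipV {i} x := by
  funext j
  unfold flipV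
  by_cases h : j = i
  · subst h; simp
  · simp [h]

/-- All half-size sets, all dimensions. -/
theorem exists_stretch : ∃ C : ℝ, 0 < C ∧ ∀ n : ℕ, ∀ A : Finset (Fin (n + 1) → Bool),
    A.card = 2 ^ n → ∃ f : (Fin n → Bool) → (Fin (n + 1) → Bool),
      Function.Injective f ∧ Set.range f = (A : Set (Fin (n + 1) → Bool)) ∧
      ∑ x : Fin n → Bool, ∑ i : Fin n,
        (hammingDist (f x) (f (Function.update x i (!x i))) : ℝ) ≤ C * (n * 2 ^ n) := by
  have hTAIL := Pool.Agent.K1H44.ST.t_TAIL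
  have hNF := Pool.Agent.K1H37.ST.t_NF
  have hTUP := Pool.Agent.K1H37.ST.t_TUP
  have hMEAN := Pool.Agent.K1H37.ST.t_MEAN
  have hSTR2 := Pool.Agent.K1H9.ST.t_STR2 Pool.Agent.K1H85.ST.t_LINE Pool.Agent.K1H85.ST.t_RANK hTAIL
  have hSTR := Pool.Agent.K1H9.ST.t_STR Pool.Agent.K1H85.ST.t_LINE Pool.Agent.K1H85.ST.t_RANK hNF hTAIL
  have hSYS := Pool.Agent.K1H25.ST.t_SYS Pool.Agent.K1H37.ST.t_POT hTAIL hSTR
    (Pool.Agent.K1H85.ST.t_ZE hNF hSTR2 hTAIL) (Pool.Agent.K1H90.ST.t_ETA hTAIL)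
    Pool.Agent.K1H90.ST.t_THR Pool.Agent.K1H90.ST.t_SMALL Pool.Agent.K1H9.ST.t_COL1
    Pool.Agent.K1H9.ST.t_COL2
  have hVAR := t_VARG Pool.Agent.K1H37.ST.t_JOINT hMEAN Pool.Agent.K1H37.ST.t_INDEP hTUP
  have hFIN := t_FING hVAR hMEAN (t_STRFG Pool.Agent.K1H37.ST.t_FST) Pool.Agent.K1H37.ST.t_MATCH
    (t_CODEG hTUP)
  obtain ⟨C, hC, n0, hS⟩ := hSYS
  obtain ⟨C', m0, hF⟩ := hFIN C hC
  obtain ⟨n1, hn1⟩ : ∃ n1 : ℕ, n1 = n0 + 4 ^ m0 := ⟨_, rfl⟩
  refine ⟨|C'| + (n1 : ℝ) + 1, by positivity, ?_⟩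
  intro n A hA
  have hnp : (0 : ℝ) ≤ (n : ℝ) * 2 ^ n := by positivity
  rcases Nat.lt_or_ge n n1 with hlt | hge
  · -- small dimensions: any bijection
    obtain ⟨e⟩ : Nonempty ((Fin n → Bool) ≃ A) := by
      refine ⟨Fintype.equivOfCardEq ?_⟩
      rw [Fintype.card_coe, hA]
      simp
    refine ⟨fun x => (e x : Fin (n + 1) → Bool), ?_, ?_, ?_⟩
    · intro x y hxy
      exact e.injective (Subtype.ext hxy)
    · ext z
      constructor
      · rintro ⟨x, rfl⟩
        exact (e x).2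
      · intro hz
        exact ⟨e.symm ⟨z, hz⟩, by simp⟩
    · have h1 : ∀ (x : Fin n → Bool) (i : Fin n), (hammingDist ((e x : Fin (n + 1) → Bool))
          (e (Function.update x i (!x i)) : Fin (n + 1) → Bool) : ℝ) ≤ (n1 : ℝ) + 1 := by
        intro x i
        have h2 : hammingDist ((e x : Fin (n + 1) → Bool))
          (e (Function.update x i (!x i)) : Fin (n + 1) → Bool) ≤ n + 1 := by
          have := hammingDist_le_card_fintype (x := (e x : Fin (n + 1) → Bool))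
            (y := (e (Function.update x i (!x i)) : Fin (n + 1) → Bool))
          simpa using this
        have h3 : n + 1 ≤ n1 + 1 := by omega
        exact_mod_cast h2.trans h3
      calc ∑ x : Fin n → Bool, ∑ i : Fin n, (hammingDist ((e x : Fin (n + 1) → Bool))
            (e (Function.update x i (!x i)) : Fin (n + 1) → Bool) : ℝ)
          ≤ ∑ x : Fin n → Bool, ∑ i : Fin n, ((n1 : ℝ) + 1) :=
            sum_le_sum fun x _ => sum_le_sum fun i _ => h1 x i
        _ = ((n1 : ℝ) + 1) * (n * 2 ^ n) := by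
            rw [sum_const, sum_const, card_univ, card_univ]
            simp
            ring
        _ ≤ _ := by
            refine mul_le_mul_of_nonneg_right ?_ hnp
            have := abs_nonneg C'
            linarith
  · have hn0 : n0 ≤ n1 := by rw [hn1]; exact Nat.le_add_right _ _
    have hm0 : 4 ^ m0 ≤ n1 := by rw [hn1]; exact Nat.le_add_left _ _
    obtain ⟨m, hm, hrel⟩ := exists_rel n m0 (hm0.trans (hge.trans (Nat.le_succ n)))
    obtain ⟨N, T, cl, cm, hsys⟩ := hS n (hn0.trans hge) A hA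
    obtain ⟨g, hg1, hg2, hg3⟩ := hF m hm n hrel A hA N T cl cm hsys
    refine ⟨g, hg1, hg2, ?_⟩
    simp_rw [update_eq_flipV]
    refine hg3.trans (mul_le_mul_of_nonneg_right ?_ hnp)
    have := le_abs_self C'
    have : (0 : ℝ) ≤ n1 := Nat.cast_nonneg _
    linarith

end Pool.Agent.Helper7.ST
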