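import Pool.Agent.Helper7.ST.VarG4

/-! The second moment, all dimensions. -/

set_option autoImplicit false

noncomputable section

namespace Pool.Agent.Helper7.ST

open Finset Pool.Agent.K1H64.ST

theorem var_coreG (hJ : S_JOINT) (hMe : S_MEAN) (hI : S_INDEP) (hT : S_TUP)
    {C : ℝ} (hC : 1 ≤ C) {n N : ℕ} {A : Finset (Cube (n + 1))} {T : Cube n → Fin N → Cube (n + 1)}
    {cl : Cube n → Fin N → ℕ} {cm : ℕ} (ρ : ℕ) (hS : Sys C n A N T cl cm) {b m : ℕ} {K : ℕ → ℝ}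
    {L : Cube n → Cube n} {B : ℕ → Finset (Fin n)} (hcs : CodeSys b K m n L B)
    (hn1 : 1 ≤ n) (hnm : Rel m n) (hb : 48 * C ≤ 2 ^ b) (hcmb : cm + b ≤ m)
    (hbig : 2 * (C * 2 ^ cm * Real.sqrt (n + 1)) + 2 * ρ < ((n : ℝ) + 1) / 2)
    (κ : ℝ) (hκ : κ = ((ρ + ρ).factorial : ℝ) / (Real.sqrt (n + 1)) ^ (ρ + ρ)) :
    ∑ π : Equiv.Perm (Fin n), ∑ R : Rnd n N cm, ∑ y : Cube (n + 1),
      (∑ z, (NN T cl L B π R z - mean T cl cm z) * PK ρ z y) ^ 2 ≤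
    ((Fintype.card (Equiv.Perm (Fin n)) : ℝ) * (Fintype.card (Rnd n N cm) : ℝ)) *
      (cm * (κ * (1 + 2 ^ (4 ^ (cm + b)))) * 2 ^ n +
        2 * ((n : ℝ) + 1) ^ 8 * (κ + (κ * (24 * (1 + C * 2 ^ cm)) ^ 30 * 2 ^ (4 ^ b) +
        2 * (|K 30| / (Real.sqrt (n + 1)) ^ 30) + 4 * C * (1 / 2) ^ (Nat.sqrt (n + 1)))) * 2 ^ n) := by
  have hκpos : 0 ≤ κ := by rw [hκ]; positivity
  have hNpos : (0 : ℝ) < N := by exact_mod_cast hS.posN
  have s1 : ∑ π : Equiv.Perm (Fin n), ∑ R : Rnd n N cm, ∑ y : Cube (n + 1),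
      (∑ z, (NN T cl L B π R z - mean T cl cm z) * PK ρ z y) ^ 2 ≤
      ∑ π : Equiv.Perm (Fin n), (Fintype.card (Rnd n N cm) : ℝ) *
      ((∑ c ∈ range cm, (∑ s, Gf ρ T cl c s s +
          ∑ E ∈ code L (B c), ∑ s, Gf ρ T cl c s (flipV (pb π E) s))) / N +
      2 * (n + 1) ^ 8 * (∑ s, Hf ρ cm T cl s s +
          ∑ E ∈ code L (B 0), ∑ s, Hf ρ cm T cl s (flipV (pb π E) s)) / N ^ 2) :=
    sum_le_sum fun π _ => var_bound ρ T cl L B π hJ hMe hI hS.posN hcs.bij hcs.lin hcs.mono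
  refine s1.trans ?_
  rw [sum_perm_code2 (Fintype.card (Rnd n N cm) : ℝ) N cm (2 * (n + 1) ^ 8) (fun c => code L (B c))
      (fun c F => ∑ s, Gf ρ T cl c s (flipV F s)) (fun c => ∑ s, Gf ρ T cl c s s)
      (fun F => ∑ s, Hf ρ cm T cl s (flipV F s)) (∑ s, Hf ρ cm T cl s s)]
  refine mul_le_mul_of_nonneg_left (add_le_add ?_ ?_) (by positivity)
  · rw [div_le_iff₀ hNpos]
    have h1 : ∀ c ∈ range cm, (∑ s, Gf ρ T cl c s s +
        ∑ E ∈ code L (B c), (∑ F ∈ powersetCard E.card univ, ∑ s, Gf ρ T cl c s (flipV F s)) /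
          (n.choose E.card : ℝ)) ≤ κ * (1 + 2 ^ (4 ^ (cm + b))) * 2 ^ n * N := by
      intro c hc
      rw [mem_range] at hc
      have h2 := Gdiag (N := N) (T := T) (cl := cl) ρ hT c
      have h3 := GcodeG ρ hT hC hS hcs hn1 hnm hb c hc (by omega)
      rw [← hκ] at h2 h3
      have h4 : (2 : ℝ) ^ (4 ^ (c + b)) ≤ 2 ^ (4 ^ (cm + b)) := by
        refine pow_le_pow_right₀ (by norm_num) ?_
        exact Nat.pow_le_pow_right (by norm_num) (by omega)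
      calc _ ≤ κ * (2 ^ n * N) + κ * 2 ^ (4 ^ (c + b)) * (2 ^ n * N) := add_le_add h2 h3
        _ ≤ κ * (2 ^ n * N) + κ * 2 ^ (4 ^ (cm + b)) * (2 ^ n * N) := by gcongr
        _ = _ := by ring
    refine (sum_le_sum h1).trans (le_of_eq ?_)
    rw [sum_const, card_range, nsmul_eq_mul]
    ring
  · rw [div_le_iff₀ (by positivity)]
    have h2 := Hdiag (N := N) (T := T) (cl := cl) (cm := cm) ρ hT
    have h3 := HcodeG ρ hT hC hS hcs hn1 hnm (by omega) hbig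
    rw [← hκ] at h2 h3
    calc _ ≤ 2 * ((n : ℝ) + 1) ^ 8 * (κ * (2 ^ n * N ^ 2) +
          (κ * (24 * (1 + C * 2 ^ cm)) ^ 30 * 2 ^ (4 ^ b) +
        2 * (|K 30| / (Real.sqrt (n + 1)) ^ 30) + 4 * C * (1 / 2) ^ (Nat.sqrt (n + 1))) *
          (2 ^ n * N ^ 2)) := by
          refine mul_le_mul_of_nonneg_left ?_ (by positivity)
          exact add_le_add h2 h3
      _ = _ := by ring

end Pool.Agent.Helper7.ST
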