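import Pool.Agent.Helper7.ST.VarG6

/-! The second moment, all dimensions: conclusion. -/

set_option autoImplicit false

noncomputable section

namespace Pool.Agent.Helper7.ST

open Finset Pool.Agent.K1H64.ST

/-- `S_VAR` with the relation `Rel m n` in place of `n + 1 = 4 ^ m`. -/
def S_VARG : Prop := ∀ C : ℝ, 1 ≤ C → ∃ b : ℕ, 1 ≤ b ∧ ∀ K : ℕ → ℝ, ∃ (ρ m0 : ℕ),
  ∀ m ≥ m0, ∀ n : ℕ, Rel m n → ∀ (A : Finset (Cube (n + 1))) (N : ℕ)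
  (T : Cube n → Fin N → Cube (n + 1)) (cl : Cube n → Fin N → ℕ) (cm : ℕ), Sys C n A N T cl cm →
  ∀ (L : Cube n → Cube n) (B : ℕ → Finset (Fin n)), CodeSys b K m n L B →
    ∑ π : Equiv.Perm (Fin n), ∑ R : Rnd n N cm, ∑ y : Cube (n + 1),
      (∑ z, (NN T cl L B π R z - mean T cl cm z) * PK ρ z y) ^ 2 ≤
    2 ^ n / (n + 1) ^ 6 * ((Fintype.card (Equiv.Perm (Fin n)) : ℝ) * (Fintype.card (Rnd n N cm) : ℝ))

theorem ev_logR (D : ℝ) : ∀ᶠ k : ℝ in Filter.atTop, D * (Real.log k) ^ 30 ≤ k := by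
  have h1 := (isLittleO_log_rpow_atTop (r := 1/30) (by norm_num))
  have h0 : (0 : ℝ) < (|D| + 1) ^ (-(1:ℝ)/30) := Real.rpow_pos_of_pos (by positivity) _
  have h2 := (h1.def h0)
  filter_upwards [h2, Filter.eventually_ge_atTop 1] with k hk hk1
  have hl : 0 ≤ Real.log k := Real.log_nonneg hk1
  have hk0 : 0 ≤ k := by linarith
  rw [Real.norm_of_nonneg hl, Real.norm_of_nonneg (by positivity)] at hk
  have h4 : (Real.log k) ^ 30 ≤ ((|D| + 1) ^ (-(1:ℝ)/30) * k ^ ((1:ℝ)/30)) ^ 30 :=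
    pow_le_pow_left₀ hl hk 30
  rw [mul_pow, ← Real.rpow_natCast ((|D| + 1) ^ (-(1:ℝ)/30)) 30,
    ← Real.rpow_natCast (k ^ ((1:ℝ)/30)) 30, ← Real.rpow_mul (by positivity),
    ← Real.rpow_mul (by positivity)] at h4
  norm_num at h4
  rw [Real.rpow_neg_one] at h4
  have h5 : 0 ≤ (Real.log k) ^ 30 := by positivity
  calc D * (Real.log k) ^ 30 ≤ (|D| + 1) * (Real.log k) ^ 30 := by
        have := le_abs_self D
        nlinarith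
    _ ≤ (|D| + 1) * ((|D| + 1)⁻¹ * k) := mul_le_mul_of_nonneg_left h4 (by positivity)
    _ = k := by field_simp

/-- Consequences of `4^cm ≤ 3 C ℓ`, `ℓ = log k`. -/
theorem num_cmG (C ℓ : ℝ) (k : ℝ) (b m cm a0 : ℕ) (hC : 1 ≤ C) (hℓ1 : 1 ≤ ℓ) (hk : k ≤ 2 ^ m)
    (hkℓ : k = Real.exp ℓ)
    (e1 : ((24 * (1 + 3 * C ^ 2)) ^ 30 + 3 * C * 2 ^ b + 100 * C ^ 2) * ℓ ^ 30 ≤ k)
    (hcm4 : (4 : ℝ) ^ cm ≤ 3 * C * ℓ) (ha0 : 3 * 4 ^ b * C ≤ a0) :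
    cm + b ≤ m ∧ (24 * (1 + C * 2 ^ cm)) ^ 30 ≤ k ∧ C * 2 ^ cm * k ≤ (3 / 100) * (k * k) ∧
      (2 : ℝ) ^ (4 ^ (cm + b)) ≤ k ^ a0 ∧ (cm : ℝ) ≤ k := by
  have hkpos : 0 < k := by rw [hkℓ]; exact Real.exp_pos _
  have hCpos : 0 < C := by linarith
  have hℓpos : 0 < ℓ := by linarith
  have hℓ30 : ℓ ≤ ℓ ^ 30 := by
    calc ℓ = ℓ ^ 1 := (pow_one _).symm
      _ ≤ ℓ ^ 30 := pow_le_pow_right₀ hℓ1 (by norm_num)
  have q1 : 0 ≤ (24 * (1 + 3 * C ^ 2)) ^ 30 := by positivity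
  have q2 : 0 ≤ 3 * C * 2 ^ b := by positivity
  have q3 : 0 ≤ 100 * C ^ 2 := by positivity
  have hcm24 : (2 : ℝ) ^ cm ≤ 4 ^ cm := pow_le_pow_left₀ (by norm_num) (by norm_num) _
  have hcm2 : (2 : ℝ) ^ cm ≤ 3 * C * ℓ := hcm24.trans hcm4
  have hC2 : C * 2 ^ cm ≤ 3 * C ^ 2 * ℓ := by
    calc C * 2 ^ cm ≤ C * (3 * C * ℓ) := mul_le_mul_of_nonneg_left hcm2 hCpos.le
      _ = _ := by ring
  have hℓk : 3 * C * 2 ^ b * ℓ ≤ k := by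
    refine le_trans ?_ e1
    calc 3 * C * 2 ^ b * ℓ ≤ 3 * C * 2 ^ b * ℓ ^ 30 := mul_le_mul_of_nonneg_left hℓ30 q2
      _ ≤ _ := mul_le_mul_of_nonneg_right (by linarith) (by positivity)
  have hCk : 100 * C ^ 2 * ℓ ≤ k := by
    refine le_trans ?_ e1
    calc 100 * C ^ 2 * ℓ ≤ 100 * C ^ 2 * ℓ ^ 30 := mul_le_mul_of_nonneg_left hℓ30 q3
      _ ≤ _ := mul_le_mul_of_nonneg_right (by linarith) (by positivity)
  refine ⟨?_, ?_, ?_, ?_, ?_⟩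
  · have h1 : (2 : ℝ) ^ (cm + b) ≤ 2 ^ m := by
      rw [pow_add]
      calc (2 : ℝ) ^ cm * 2 ^ b ≤ (3 * C * ℓ) * 2 ^ b :=
            mul_le_mul_of_nonneg_right hcm2 (by positivity)
        _ = 3 * C * 2 ^ b * ℓ := by ring
        _ ≤ k := hℓk
        _ ≤ 2 ^ m := hk
    exact (pow_le_pow_iff_right₀ (by norm_num : (1:ℝ) < 2)).1 h1
  · refine le_trans ?_ e1
    calc (24 * (1 + C * 2 ^ cm)) ^ 30 ≤ (24 * (1 + 3 * C ^ 2) * ℓ) ^ 30 := by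
          refine pow_le_pow_left₀ (by positivity) ?_ 30
          nlinarith [sq_nonneg C]
      _ = (24 * (1 + 3 * C ^ 2)) ^ 30 * ℓ ^ 30 := mul_pow _ _ _
      _ ≤ _ := mul_le_mul_of_nonneg_right (by linarith) (by positivity)
  · calc C * 2 ^ cm * k ≤ (3 * C ^ 2 * ℓ) * k := mul_le_mul_of_nonneg_right hC2 hkpos.le
      _ = (3 / 100) * ((100 * C ^ 2 * ℓ) * k) := by ring
      _ ≤ (3 / 100) * (k * k) := by
        refine mul_le_mul_of_nonneg_left ?_ (by norm_num)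
        exact mul_le_mul_of_nonneg_right hCk hkpos.le
  · have h1 : (2 : ℝ) ^ (4 ^ (cm + b)) = Real.exp (((4 ^ (cm + b) : ℕ) : ℝ) * Real.log 2) := by
      rw [Real.exp_nat_mul, Real.exp_log (by norm_num)]
    have h2 : k ^ a0 = Real.exp ((a0 : ℝ) * ℓ) := by
      rw [Real.exp_nat_mul, hkℓ]
    rw [h1, h2]
    refine Real.exp_le_exp.2 ?_
    have h3 : Real.log 2 ≤ 1 := by
      have := Real.log_two_lt_d9; linarith
    have h4 : ((4 ^ (cm + b) : ℕ) : ℝ) = 4 ^ cm * 4 ^ b := by push_cast; rw [pow_add]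
    rw [h4]
    calc (4 : ℝ) ^ cm * 4 ^ b * Real.log 2 ≤ (4 : ℝ) ^ cm * 4 ^ b * 1 :=
          mul_le_mul_of_nonneg_left h3 (by positivity)
      _ = (4 : ℝ) ^ cm * 4 ^ b := mul_one _
      _ ≤ (3 * C * ℓ) * 4 ^ b := mul_le_mul_of_nonneg_right hcm4 (by positivity)
      _ = (3 * 4 ^ b * C) * ℓ := by ring
      _ ≤ a0 * ℓ := mul_le_mul_of_nonneg_right ha0 hℓpos.le
  · have h1 : (cm : ℝ) ≤ 2 ^ cm := by exact_mod_cast (Nat.lt_two_pow_self (n := cm)).le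
    have h2 : 3 * C * ℓ ≤ 3 * C * 2 ^ b * ℓ := by
      have h5 : (1 : ℝ) ≤ 2 ^ b := one_le_pow₀ (by norm_num)
      have h3 : 0 ≤ 3 * C * ℓ := by positivity
      nlinarith
    linarith


theorem t_VARG (hJ : S_JOINT) (hMe : S_MEAN) (hI : S_INDEP) (hT : S_TUP) : S_VARG := by
  intro C hC
  obtain ⟨b, hb⟩ : ∃ b : ℕ, 48 * C ≤ 2 ^ b := by
    obtain ⟨b, hb⟩ := pow_unbounded_of_one_lt (48 * C) (by norm_num : (1:ℝ) < 2)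
    exact ⟨b, hb.le⟩
  have hb1 : 1 ≤ b := by
    by_contra hcon
    have : b = 0 := by omega
    rw [this] at hb
    norm_num at hb
    linarith
  refine ⟨b, hb1, fun K => ?_⟩
  obtain ⟨a0, ha0⟩ : ∃ a0 : ℕ, 3 * 4 ^ b * C ≤ a0 := ⟨_, Nat.le_ceil _⟩
  obtain ⟨ρ, hρ⟩ : ∃ ρ : ℕ, ρ = a0 + 20 := ⟨_, rfl⟩
  obtain ⟨κ0, hκ0⟩ : ∃ κ0 : ℝ, κ0 = ((ρ + ρ).factorial : ℝ) := ⟨_, rfl⟩
  have hκ0pos : 0 < κ0 := by rw [hκ0]; positivity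
  obtain ⟨Z, hZ⟩ : ∃ Z : ℝ, Z = 2 ^ (4 ^ b) := ⟨_, rfl⟩
  have hZ1 : 1 ≤ Z := by rw [hZ]; exact one_le_pow₀ (by norm_num)
  obtain ⟨Q0, hQ0⟩ : ∃ Q0 : ℝ, Q0 = 64 * κ0 * Z + 64 * |K 30| + 8 * (ρ : ℝ) + 8 := ⟨_, rfl⟩
  obtain ⟨s0, hs0⟩ : ∃ s0 : ℝ, ∀ k : ℝ, s0 ≤ k →
      ((24 * (1 + 3 * C ^ 2)) ^ 30 + 3 * C * 2 ^ b + 100 * C ^ 2) * (Real.log k) ^ 30 ≤ k :=
    Filter.eventually_atTop.1 (ev_logR ((24 * (1 + 3 * C ^ 2)) ^ 30 + 3 * C * 2 ^ b + 100 * C ^ 2))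
  obtain ⟨r0, hr0⟩ : ∃ r0 : ℕ, ∀ k : ℕ, r0 ≤ k →
      64 * C * 2 ^ 28 * ((k : ℝ) ^ 28 * (1 / 2) ^ k) ≤ 1 :=
    Filter.eventually_atTop.1 (ev_exp (64 * C * 2 ^ 28))
  obtain ⟨m0, hm0⟩ : ∃ m0 : ℕ, 2 * (|s0| + (r0 : ℝ) + 1 + |Q0|) ≤ 2 ^ m0 := by
    obtain ⟨m, hm⟩ := pow_unbounded_of_one_lt (2 * (|s0| + (r0 : ℝ) + 1 + |Q0|))
      (by norm_num : (1:ℝ) < 2)
    exact ⟨m, hm.le⟩
  refine ⟨ρ, m0, ?_⟩
  intro m hm n hnm A N T cl cm hS L B hcs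
  -- basic facts
  obtain ⟨hsq1, hsq2⟩ := rel_sqrt hnm
  obtain ⟨k, hkdef⟩ : ∃ k : ℝ, k = Real.sqrt ((n : ℝ) + 1) := ⟨_, rfl⟩
  rw [← hkdef] at hsq1 hsq2
  have hkbig : |s0| + (r0 : ℝ) + 1 + |Q0| ≤ k := by
    have h1 : (2 : ℝ) ^ m0 ≤ 2 ^ m := pow_le_pow_right₀ (by norm_num) hm
    linarith
  have hr0pos : (0 : ℝ) ≤ (r0 : ℝ) := Nat.cast_nonneg _
  have a1 := abs_nonneg s0
  have a2 := abs_nonneg Q0
  have a3 := le_abs_self s0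
  have a4 := le_abs_self Q0
  have e1 := hs0 k (by linarith)
  have e3 : Q0 ≤ k := by linarith
  have z1 : 0 ≤ 64 * κ0 * Z := by positivity
  have z2 : 0 ≤ 64 * |K 30| := by positivity
  have z3 : 0 ≤ 8 * (ρ : ℝ) := by positivity
  rw [hQ0] at e3
  have hk8 : (8 : ℝ) ≤ k := by linarith
  have hkκ : 64 * κ0 * Z ≤ k := by linarith
  have hkK : 64 * |K 30| ≤ k := by linarith
  have hkρ : 8 * (ρ : ℝ) ≤ k := by linarith
  have hkpos : (0 : ℝ) < k := by linarith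
  have hk1 : (1 : ℝ) ≤ k := by linarith
  have hn2 : ((n : ℝ) + 1) = k * k := by
    rw [hkdef, Real.mul_self_sqrt (by positivity)]
  have hq : Real.sqrt (n + 1) = k := hkdef.symm
  obtain ⟨r, hr⟩ : ∃ r : ℕ, r = Nat.sqrt (n + 1) := ⟨_, rfl⟩
  have hr1 : (r : ℝ) ≤ k := by
    have h1 : r * r ≤ n + 1 := by rw [hr]; exact Nat.sqrt_le _
    have h2 : (r : ℝ) * r ≤ k * k := by
      rw [← hn2]; exact_mod_cast h1
    nlinarith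
  have hr2 : k ≤ r + 1 := by
    have h1 : n + 1 < (r + 1) * (r + 1) := by rw [hr]; exact Nat.lt_succ_sqrt _
    have h2 : k * k < ((r : ℝ) + 1) * (r + 1) := by
      rw [← hn2]; exact_mod_cast h1
    by_contra hcon
    push Not at hcon
    nlinarith
  have hrr0 : r0 ≤ r := by
    have h1 : (r0 : ℝ) ≤ r := by linarith
    exact_mod_cast h1
  have e2 : 64 * C * (k ^ 28 * (1 / 2) ^ r) ≤ 1 := by
    have h1 := hr0 r hrr0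
    have h2 : k ≤ 2 * r := by linarith
    have h3 : k ^ 28 ≤ 2 ^ 28 * (r : ℝ) ^ 28 := by
      rw [← mul_pow]
      exact pow_le_pow_left₀ hkpos.le h2 28
    calc 64 * C * (k ^ 28 * (1 / 2) ^ r) ≤ 64 * C * ((2 ^ 28 * (r : ℝ) ^ 28) * (1 / 2) ^ r) := by
          gcongr
      _ = 64 * C * 2 ^ 28 * ((r : ℝ) ^ 28 * (1 / 2) ^ r) := by ring
      _ ≤ 1 := h1
  have hn1 : 1 ≤ n := by
    have : (1 : ℝ) ≤ n := by nlinarith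
    exact_mod_cast this
  obtain ⟨ℓ, hℓ⟩ : ∃ ℓ : ℝ, ℓ = Real.log k := ⟨_, rfl⟩
  rw [← hℓ] at e1
  have hℓ1 : 1 ≤ ℓ := by
    rw [hℓ, Real.le_log_iff_exp_le hkpos]
    have := Real.exp_one_lt_d9
    linarith
  have hkℓ : k = Real.exp ℓ := by rw [hℓ, Real.exp_log hkpos]
  have hcm4 : (4 : ℝ) ^ cm ≤ 3 * C * ℓ := by
    refine hS.cmle.trans ?_
    have h1 : (n : ℝ) + 2 ≤ k ^ 3 := by
      have : (n : ℝ) + 2 = k * k + 1 := by linarith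
      rw [this]
      nlinarith [mul_pos hkpos hkpos]
    have h2 : Real.log (n + 2) ≤ 3 * ℓ := by
      have := Real.log_le_log (by positivity) h1
      rw [Real.log_pow] at this
      rw [hℓ]
      push_cast at this
      exact this
    calc C * Real.log (n + 2) ≤ C * (3 * ℓ) := mul_le_mul_of_nonneg_left h2 (by linarith)
      _ = _ := by ring
  obtain ⟨hcmb, h12, hbig', h2pow, hcmk⟩ := num_cmG C ℓ k b m cm a0 hC hℓ1 hsq1 hkℓ e1 hcm4 ha0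
  have hbig : 2 * (C * 2 ^ cm * Real.sqrt (n + 1)) + 2 * (ρ : ℝ) < ((n : ℝ) + 1) / 2 := by
    rw [hq, hn2]
    nlinarith
  obtain ⟨κ, hκ⟩ : ∃ κ : ℝ, κ = ((ρ + ρ).factorial : ℝ) /
      (Real.sqrt (n + 1)) ^ (ρ + ρ) := ⟨_, rfl⟩
  have hκpos : 0 ≤ κ := by rw [hκ]; positivity
  have hκle : κ ≤ κ0 / (k ^ a0 * k ^ 40) := by
    rw [hκ, hq, ← hκ0]
    refine div_le_div_of_nonneg_left hκ0pos.le (by positivity) ?_
    rw [← pow_add]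
    exact pow_le_pow_right₀ hk1 (by omega)
  refine (var_coreG hJ hMe hI hT hC ρ hS hcs hn1 hnm hb hcmb hbig κ hκ).trans ?_
  obtain ⟨u1, u2⟩ := num_final k κ0 κ ((24 * (1 + C * 2 ^ cm)) ^ 30) Z a0 cm
    |K 30| C ((1 / 2) ^ r) hk8 hκ0pos hκpos hκle (by positivity) h12 hZ1 hkκ (abs_nonneg _) hkK hcmk
    (by linarith) (2 ^ (4 ^ (cm + b))) (by positivity) h2pow (by positivity) e2
  have hn8 : ((n : ℝ) + 1) ^ 8 = k ^ 16 := by rw [hn2]; ring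
  have hn6 : ((n : ℝ) + 1) ^ 6 = k ^ 12 := by rw [hn2]; ring
  rw [hn8, hn6, ← hr, hq, ← hZ]
  rw [mul_comm ((2 : ℝ) ^ n / k ^ 12)]
  refine mul_le_mul_of_nonneg_left ?_ (by positivity)
  rw [← add_mul]
  calc _ ≤ ((1 / 2) / k ^ 12 + (1 / 2) / k ^ 12) * 2 ^ n :=
        mul_le_mul_of_nonneg_right (add_le_add u1 u2) (by positivity)
    _ = _ := by ring

end Pool.Agent.Helper7.ST
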